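import Pool.Agent.R597.Univ

/-!
# The strong countable fan tightness game in L and in V

`Set.univ` is the class `V` of all sets, `Lcls` is the constructible universe `L`. If player II has
in `L` a winning strategy at a point `x` of a topological space `(X, τ)` of `L`, then player II has
in `V` a winning strategy at `x` in the space `X` with the topology generated by `τ`. No
hypothesis on `0^♯` or on forcing axioms is used. (The theorem `isZFC_L` of the imported file says
that `L` is a transitive model of ZFC that contains all ordinals, and `isZFC_univ` says that `V` is
a transitive model of ZFC.)

The proof: let `s` be a winning strategy of II in `L`. If `t` is a finite sequence of legal moves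
in `L` and `A` is a legal move in `V`, then there is a legal move `B` in `L` with `s(t, B) ∈ A`.
Otherwise the set `Y ∈ L` of all points that are not of the form `s(t, B)` contains `A`, so that
`Y` is a legal move, and `s(t, Y) ∈ Y`, a contradiction. So II can simulate in `V` the game in `L`;
if the answers miss a neighbourhood `U` of `x`, then the tree in `L` of the sequences of legal
moves with all answers outside `U` has a branch in `V`, hence also a branch in `L`, a
contradiction.
-/

set_option autoImplicit false

namespace Pool.Agent.Results.MP_cb406a_lc.FanTightnessAbsolute

open Pool.Agent.W868 Pool.Agent.R597

/-- A winning strategy of player II in `L` in the strong countable fan tightness game at a point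
of a topological space of `L` gives rise to a winning strategy in `V`. -/
theorem result (X τ x : ZFSet.{0}) (hX : IsTop Lcls X τ) (hx : x ∈ X) (h : IIWins Lcls X τ x) :
    IIWins Set.univ X τ x :=
  iiWins_up isZFC_L.1 isZFC_univ (Set.subset_univ _) hX.set_mem hX.top_mem
    (isZFC_L.1.trans _ hX.set_mem _ hx) hX.sub h

end Pool.Agent.Results.MP_cb406a_lc.FanTightnessAbsolute
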